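import Pool.Agent.H85.FD.Parts
import Pool.Agent.H89.FrobD.Rel
import Pool.Agent.H29.AB.Iface

/-!
# FD version 2: the first case from the cycle type of the Frobenius
-/

namespace H85FD2

open NumberField IsDedekindDomain H85FD Pool.Agent.H89.FrobD

/-- the residue degree over `F` -/
noncomputable def deg (F : Type*) [Field F] [NumberField F] {K : Type*} [Field K] [NumberField K]
    [Algebra F K] (v : HeightOneSpectrum (𝓞 K)) : ℕ := v.asIdeal.inertiaDeg (𝓞 F)

/-- the local degree over `F` -/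
noncomputable def wt (F : Type*) [Field F] [NumberField F] {K : Type*} [Field K] [NumberField K]
    [Algebra F K] (v : HeightOneSpectrum (𝓞 K)) : ℕ :=
  v.asIdeal.ramificationIdx (𝓞 F) * v.asIdeal.inertiaDeg (𝓞 F)

/-- the partition criterion holds for all solutions and all primes of `F` above `p` -/
def PartsK (F K : Type*) [Field F] [NumberField F] [Field K] [NumberField K] [Algebra F K]
    (p : ℕ) : Prop :=
  ∀ a b c : K, a ≠ 0 → b ≠ 0 → c ≠ 0 → a ^ p + b ^ p + c ^ p = 0 →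
    ∀ w : HeightOneSpectrum (𝓞 F), (p : 𝓞 F) ∈ w.asIdeal →
    ∀ S : Finset (HeightOneSpectrum (𝓞 K)),
      (∀ v, v ∈ S ↔ v.asIdeal.LiesOver w.asIdeal ∧ H29AB.EqAt v a b c) →
      ∃ E M6 M3 M2, Split4 (wt F) (deg F) (fun v => H29AB.CubAt v a b c)
        (Nat.card (𝓞 F ⧸ w.asIdeal) % 3) (p ^ 2 ∣ 2 ^ (p - 1) - 1) S.val E M6 M3 M2

/-- the primes above a prime of `F` -/
theorem exists_over {F K : Type*} [Field F] [NumberField F] [Field K] [NumberField K] [Algebra F K]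
    (u : HeightOneSpectrum (𝓞 F)) :
    ∃ S : Finset (HeightOneSpectrum (𝓞 K)), ∀ v, v ∈ S ↔ v.asIdeal.LiesOver u.asIdeal := by
  have hu := u.isPrime.isMaximal u.ne_bot
  have h1 : (u.asIdeal.primesOver (𝓞 K)).Finite := IsDedekindDomain.primesOver_finite u.asIdeal (𝓞 K)
  have h2 : {v : HeightOneSpectrum (𝓞 K) | v.asIdeal.LiesOver u.asIdeal}.Finite := by
    refine Set.Finite.of_finite_image (f := HeightOneSpectrum.asIdeal) (h1.subset ?_) ?_
    · rintro _ ⟨v, hv, rfl⟩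
      exact ⟨v.isPrime, hv⟩
    · intro v _ v' _ h
      exact HeightOneSpectrum.ext h
  exact ⟨h2.toFinset, fun v => h2.mem_toFinset⟩

/-- the first case, from the cycle type of the Frobenius -/
theorem first_of_ns {L : Type} [Field L] [NumberField L] [IsGalois ℚ L] {F K : Type} [Field F]
    [NumberField F] [Field K] [NumberField K] [Algebra F K] {p : ℕ} (hp : p.Prime) (hp3 : 3 < p)
    (hd : ¬ (p : ℤ) ∣ NumberField.discr L) (g : Gal(L/ℚ))
    (hE : (setE L (Subgroup.zpowers g) p).Nonempty) (hP : PartsK F K p) (σ₁ : K →ₐ[ℚ] L)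
    (τ : F →ₐ[ℚ] L) [Fintype (Emb K τ)] [DecidableEq (Emb K τ)] (π : Equiv.Perm (Emb K τ))
    (hπ : ∀ σ, (π σ).1 = act (g ^ Function.minimalPeriod (act g) τ) σ.1)
    (hns : ¬ SplitsN (p ^ Function.minimalPeriod (act g) τ % 3) π.partition.parts) :
    ∃ u : HeightOneSpectrum (𝓞 F), (p : 𝓞 F) ∈ u.asIdeal ∧
      ∀ a b c : K, a ≠ 0 → b ≠ 0 → c ≠ 0 → a ^ p + b ^ p + c ^ p = 0 →
      ∃ v : HeightOneSpectrum (𝓞 K), v.asIdeal.LiesOver u.asIdeal ∧ ¬ H29AB.EqAt v a b c := by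
  obtain ⟨u, hpu, hcard, hu⟩ := rel_part (K := K) hp hd g hE σ₁ τ π hπ
  refine ⟨u, hpu, fun a b c ha hb hc h => ?_⟩
  by_contra hcon
  push Not at hcon
  obtain ⟨S, hS⟩ := exists_over (K := K) u
  have h1 := hu S hS
  obtain ⟨E, M6, M3, M2, h4⟩ := hP a b c ha hb hc h u hpu S fun v =>
    ⟨fun hv => ⟨(hS v).1 hv, hcon v ((hS v).1 hv)⟩, fun hv => (hS v).2 hv.1⟩
  apply hns
  have hr : p ^ Function.minimalPeriod (act g) τ % 3 = 1 ∨ p ^ Function.minimalPeriod (act g) τ % 3 = 2 := by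
    by_cases h5 : p ^ Function.minimalPeriod (act g) τ % 3 = 1
    · exact Or.inl h5
    · exact Or.inr (pow_mod_three_ne hp hp3 _ h5)
  rw [hcard] at h4
  have h2 : S.val.map (deg F) = π.partition.parts := by
    have h3 := congrArg (Multiset.map Prod.snd) h1
    rw [Multiset.map_map, Multiset.map_map] at h3
    have e1 : (Prod.snd ∘ fun m : ℕ => (m, m)) = id := rfl
    rw [e1, Multiset.map_id] at h3
    exact h3
  rw [← h2]
  refine h4.type hr fun v hv => ?_
  have h3 : (wt F v, deg F v) ∈ S.val.map (fun v => (v.asIdeal.ramificationIdx (𝓞 F) *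
      v.asIdeal.inertiaDeg (𝓞 F), v.asIdeal.inertiaDeg (𝓞 F))) := Multiset.mem_map_of_mem _ hv
  rw [h1] at h3
  obtain ⟨m, -, hm⟩ := Multiset.mem_map.1 h3
  have e2 := congrArg Prod.fst hm
  have e3 := congrArg Prod.snd hm
  exact e2.symm.trans e3

end H85FD2
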