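import Pool.Agent.H10.FG.Dir

/-!
# FD version 2: lower Dirichlet densities from sets of elements of the Galois group
-/

namespace H85FD2

open Pool.Agent.H71.FD (Null Null_of_bounded)
open Pool.Agent.H89.FrobD H10FG

/-- finite unions -/
theorem null_biUnion {ι : Type*} (s : Finset ι) (B : ι → ℕ → Prop) (h : ∀ i ∈ s, Null (B i)) :
    Null (fun p => ∃ i ∈ s, B i p) := by
  classical
  induction s using Finset.induction_on with
  | empty => exact Null_of_bounded 0 fun p _ h => by simp at h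
  | insert a s ha ih =>
    refine ((h a (Finset.mem_insert_self a s)).or
      (ih fun i hi => h i (Finset.mem_insert_of_mem hi))).mono ?_
    rintro p _ ⟨i, hi, hB⟩
    rcases Finset.mem_insert.1 hi with rfl | hi
    · exact Or.inl hB
    · exact Or.inr ⟨i, hi, hB⟩

theorem lowerDirichlet_mono {S : Set ℕ} {δ δ' : ℝ} (h : LowerDirichlet S δ) (hδ : δ' ≤ δ) :
    LowerDirichlet S δ' := by
  intro ε hε
  obtain ⟨s₀, hs₀, hs⟩ := h ε hε
  refine ⟨min s₀ 2, lt_min hs₀ (by norm_num), fun s h1 h2 => le_trans ?_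
    (hs s h1 (lt_of_lt_of_le h2 (min_le_left _ _)))⟩
  have h3 : s < 2 := lt_of_lt_of_le h2 (min_le_right _ _)
  have h4 : 0 ≤ Real.log (1 / (s - 1)) := by
    apply Real.log_nonneg
    rw [le_div_iff₀ (by linarith)]
    linarith
  exact mul_le_mul_of_nonneg_right (by linarith) h4

/-- the density of a set of primes which contains almost all the primes with Frobenius in `X` -/
theorem lower_of (L : Type) [Field L] [NumberField L] [IsGalois ℚ L] (X : Set Gal(L/ℚ)) (S : Set ℕ)
    (hX : ∀ g ∈ X, ∃ B : ℕ → Prop, Null B ∧ ∀ p : ℕ, p.Prime → ¬ (p : ℤ) ∣ NumberField.discr L →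
      ¬ B p → (setE L (Subgroup.zpowers g) p).Nonempty → p ∈ S) {δ : ℝ}
    (hδ : δ * (Module.finrank ℚ L : ℝ) ≤ X.ncard) : LowerDirichlet S δ := by
  classical
  have hfin : Finite Gal(L/ℚ) := inferInstance
  have hpos : (0 : ℝ) < Module.finrank ℚ L := by
    exact_mod_cast (Module.finrank_pos : 0 < Module.finrank ℚ L)
  choose! B hB hS using hX
  have hfX : X.Finite := Set.toFinite X
  have h1 := null_biUnion hfX.toFinset B fun g hg => hB g (hfX.mem_toFinset.1 hg)
  refine lowerDirichlet_mono (frob_lower L {E | ∃ g ∈ X, E = Subgroup.zpowers g} h1 S ?_) ?_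
  · rintro p hp hd hnB E ⟨g, hg, rfl⟩ hE
    exact hS g hg p hp hd (fun h => hnB ⟨g, hfX.mem_toFinset.2 hg, h⟩) hE
  · rw [le_div_iff₀ hpos]
    refine hδ.trans (Nat.cast_le.2 ?_)
    rw [← Nat.card_coe_set_eq]
    refine Nat.card_le_card_of_injective
      (fun g : X => (⟨g.1, g.1, g.2, rfl⟩ : {g : Gal(L/ℚ) // Subgroup.zpowers g ∈
        {E | ∃ g ∈ X, E = Subgroup.zpowers g}})) ?_
    intro g g' h
    exact Subtype.ext (Subtype.mk.inj h)

end H85FD2
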