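import Pool.Agent.H85.FD2.Main
import Pool.Agent.H85.FD2.Fr
import Pool.Agent.H10.FG.Main

/-!
# FD version 2: clause (C) with ring homomorphisms
-/

namespace H85FD2

open NumberField IsDedekindDomain H85FD Pool.Agent.H89.FrobD

/-- powers of an automorphism as a ring homomorphism -/
theorem pow_coe {L : Type*} [Field L] [NumberField L] (g : Gal(L/ℚ)) (k : ℕ) (x : L) :
    ((g : L →+* L) ^ k) x = (g ^ k) x := by
  induction k with
  | zero => rfl
  | succ k ih =>
    rw [pow_succ', pow_succ', RingHom.mul_def, RingHom.comp_apply, ih, AlgEquiv.mul_apply]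
    rfl

/-- the orbit length on ring homomorphisms -/
theorem period_coe {F L : Type} [Field F] [NumberField F] [Field L] [NumberField L] (g : Gal(L/ℚ))
    (τ : F →+* L) : Function.minimalPeriod (fun τ : F →+* L => (g : L →+* L).comp τ) τ =
      Function.minimalPeriod (act g) (τ.toRatAlgHom) := by
  have hit : ∀ (n : ℕ) (x : F), ((fun τ : F →+* L => (g : L →+* L).comp τ)^[n] τ) x =
      ((act g)^[n] τ.toRatAlgHom) x := by
    intro n
    induction n with
    | zero => intro x; rfl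
    | succ n ih =>
      intro x
      rw [Function.iterate_succ_apply', Function.iterate_succ_apply']
      show (g : L →+* L) _ = g _
      rw [ih]
      rfl
  rw [Function.minimalPeriod_eq_minimalPeriod_iff]
  intro n
  rw [Function.IsPeriodicPt, Function.IsPeriodicPt, Function.IsFixedPt, Function.IsFixedPt]
  constructor
  · intro h
    ext x
    rw [← hit, h]
    rfl
  · intro h
    ext x
    rw [hit, h]
    rfl

/-- a larger cyclotomic field -/
theorem realAb_mul {n : ℕ} (hn : 0 < n) (k : ℕ) (hk : 0 < k) {F : Type*} [Field F] [NumberField F]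
    (hF : H29AB.RealAb n F) : H29AB.RealAb (n * k) F := by
  have hfne : NeZero n := ⟨hn.ne'⟩
  have hfnk : NeZero k := ⟨hk.ne'⟩
  have hfne2 : NeZero (n * k) := ⟨(Nat.mul_pos hn hk).ne'⟩
  have hfq : NeZero ((n : ℕ) : ℚ) := ⟨Nat.cast_ne_zero.2 hn.ne'⟩
  have hfq2 : NeZero (((n * k : ℕ) : ℕ) : ℚ) := ⟨Nat.cast_ne_zero.2 (Nat.mul_pos hn hk).ne'⟩
  have hc1 : IsCyclotomicExtension {n} ℚ (CyclotomicField n ℚ) :=
    CyclotomicField.isCyclotomicExtension n ℚ
  have hc2 : IsCyclotomicExtension {n * k} ℚ (CyclotomicField (n * k) ℚ) :=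
    CyclotomicField.isCyclotomicExtension (n * k) ℚ
  obtain ⟨htot, ⟨ι⟩⟩ := hF
  obtain ⟨φ⟩ := H9AB.exists_emb n k (CyclotomicField n ℚ) (CyclotomicField (n * k) ℚ)
  exact ⟨htot, ⟨(φ : CyclotomicField n ℚ →+* CyclotomicField (n * k) ℚ).comp ι⟩⟩

/-- CLAUSE (C) -/
theorem blocked_main (K L : Type) [Field K] [NumberField K] [Field L] [NumberField L] [IsGalois ℚ L]
    (hKL : Nonempty (K →+* L)) (X : Set Gal(L/ℚ))
    (hX : ∀ g ∈ X, ∃ (F : Type) (_ : Field F) (_ : NumberField F) (_ : Algebra F K),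
      (∃ n : ℕ, 0 < n ∧ H29AB.RealAb n F) ∧ ∃ τ : F →+* L,
        ∃ (_ : Fintype {σ : K →+* L // ∀ x : F, σ (algebraMap F K x) = τ x})
          (_ : DecidableEq {σ : K →+* L // ∀ x : F, σ (algebraMap F K x) = τ x})
          (π : Equiv.Perm {σ : K →+* L // ∀ x : F, σ (algebraMap F K x) = τ x}),
          (∀ σ, (π σ).1 = ((g : L →+* L) ^ Function.minimalPeriod
            (fun τ : F →+* L => (g : L →+* L).comp τ) τ).comp σ.1) ∧
          ∀ r : ℕ, (r = 1 ∨ r = 2) → (∀ ω : L, ω ^ 2 + ω + 1 = 0 →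
            (((g : L →+* L) ^ Function.minimalPeriod
              (fun τ : F →+* L => (g : L →+* L).comp τ) τ) ω = ω ↔ r = 1)) →
            ¬ SplitsN r π.partition.parts) :
    H10FG.LowerDirichlet {p | H10FG.FC K p} ((X.ncard : ℝ) / (Module.finrank ℚ L : ℝ)) := by
  classical
  obtain ⟨σ₁⟩ := hKL
  refine lower_of L X _ (fun g hg => ?_) (le_of_eq (div_mul_cancel₀ _ ?_))
  · obtain ⟨F, iF, iN, iA, ⟨n, hn, hF⟩, τ, hfin, hdec, π, hπ, hr⟩ := hX g hg
    obtain ⟨B, hB, h⟩ := main_all.{0, 0} (n * (Module.finrank F K + 1)) (Nat.mul_pos hn (Nat.succ_pos _))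
    refine ⟨B, hB, fun p hp hd hBp hE => ?_⟩
    obtain ⟨hp5, h1⟩ := h p hp hBp
    have hout := h1 F K (realAb_mul hn _ (Nat.succ_pos _) hF)
      ((Nat.le_succ _).trans (Nat.le_mul_of_pos_left _ hn))
    -- the embeddings
    let τ' : F →ₐ[ℚ] L := τ.toRatAlgHom
    let e : Emb K τ' ≃ {σ : K →+* L // ∀ x : F, σ (algebraMap F K x) = τ x} :=
      { toFun := fun σ => ⟨(σ.1 : K →+* L), σ.2⟩
        invFun := fun σ => ⟨σ.1.toRatAlgHom, σ.2⟩
        left_inv := fun σ => Subtype.ext (AlgHom.ext fun x => rfl)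
        right_inv := fun σ => Subtype.ext (RingHom.ext fun x => rfl) }
    have hfin' : Fintype (Emb K τ') := Fintype.ofEquiv _ e.symm
    have hk := period_coe g τ
    set k := Function.minimalPeriod (fun τ : F →+* L => (g : L →+* L).comp τ) τ with hkdef
    let π' : Equiv.Perm (Emb K τ') := (e.trans π).trans e.symm
    have hπ' : ∀ σ, (π' σ).1 = act (g ^ Function.minimalPeriod (act g) τ') σ.1 := by
      intro σ
      rw [← hk]
      ext x
      have h2 := DFunLike.congr_fun (hπ (e σ)) x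
      rw [RingHom.comp_apply, pow_coe] at h2
      exact h2
    have hparts : π'.partition.parts = π.partition.parts :=
      H10FG.parts_congr e π' π fun σ => by
        show e (e.symm (π (e σ))) = π (e σ)
        rw [Equiv.apply_symm_apply]
    have hns : ¬ SplitsN (p ^ Function.minimalPeriod (act g) τ' % 3) π'.partition.parts := by
      rw [hparts, ← hk]
      refine hr _ ?_ fun ω hω => ?_
      · by_cases h5 : p ^ k % 3 = 1
        · exact Or.inl h5
        · exact Or.inr (pow_mod_three_ne hp (by omega) _ h5)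
      · rw [pow_coe]
        exact (pow_mod_three_iff hp (by omega) hd g hE k ω hω).symm
    obtain ⟨u, hpu, hu⟩ := first_of_ns hp (by omega) hd g hE hout.parts σ₁.toRatAlgHom τ' π' hπ' hns
    intro a b c ha hb hc hs
    obtain ⟨v, hv, hn⟩ := hu a b c ha hb hc hs
    refine ⟨v, ?_, hn⟩
    have h6 : u.asIdeal = v.asIdeal.under (𝓞 F) := (Ideal.liesOver_iff _ _).1 hv
    rw [h6, Ideal.under, Ideal.mem_comap, map_natCast] at hpu
    exact hpu
  · have : (Module.finrank ℚ L : ℝ) ≠ 0 := Nat.cast_ne_zero.2 Module.finrank_pos.ne'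
    exact this

end H85FD2
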