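import Pool.Agent.H85.FD.Parts

/-!
# FD version 2: the partition criterion with finite sets
-/

namespace H85FD2

open Finset H85FD

/-- the groups of the partition as finite sets -/
theorem fins_of_split4 {α : Type*} {wt f : α → ℕ} {cub : α → Prop} {r : ℕ} {W : Prop}
    {S : Finset α} {E₀ A₀ B₀ C₀ : Multiset α} (h : Split4 wt f cub r W S.val E₀ A₀ B₀ C₀) :
    ∃ E A B C : Finset α, (∀ v, v ∈ E ↔ v ∈ S ∧ cub v) ∧
      (∀ v, (v ∈ A ∨ v ∈ B ∨ v ∈ C) ↔ v ∈ S ∧ ¬ cub v) ∧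
      Disjoint A B ∧ Disjoint A C ∧ Disjoint B C ∧
      (r = 2 → ∀ v ∈ E, Even (f v)) ∧ (r = 1 → Parts wt 2 E.val) ∧
      Parts wt 6 A.val ∧ Parts wt 3 B.val ∧ (W ∨ ∀ v ∈ B, Even (f v)) ∧
      Parts wt 2 C.val ∧ ∀ v ∈ C, 3 ∣ f v := by
  classical
  have hnd : (E₀ + (A₀ + B₀ + C₀)).Nodup := h.eq ▸ S.nodup
  rw [Multiset.nodup_add] at hnd
  obtain ⟨hE, hN, hEN⟩ := hnd
  have hN' := hN
  rw [Multiset.nodup_add] at hN'
  obtain ⟨hAB, hC, hABC⟩ := hN'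
  have hAB' := hAB
  rw [Multiset.nodup_add] at hAB'
  obtain ⟨hA, hB, hdAB⟩ := hAB'
  rw [Multiset.disjoint_add_left] at hABC
  have hmem : ∀ v, v ∈ S ↔ v ∈ E₀ ∨ (v ∈ A₀ ∨ v ∈ B₀ ∨ v ∈ C₀) := by
    intro v
    rw [← Finset.mem_val, h.eq]
    simp only [Multiset.mem_add, or_assoc]
  have hnot : ∀ v, (v ∈ A₀ ∨ v ∈ B₀ ∨ v ∈ C₀) → ¬ cub v := by
    intro v hv
    apply h.cubN v
    simpa only [Multiset.mem_add, or_assoc] using hv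
  refine ⟨⟨E₀, hE⟩, ⟨A₀, hA⟩, ⟨B₀, hB⟩, ⟨C₀, hC⟩, fun v => ?_, fun v => ?_, ?_, ?_, ?_,
    fun hr v hv => h.even hr v hv, fun hr => h.two hr, h.p6, h.p3, h.e3, h.p2, h.d2⟩
  · rw [hmem]
    simp only [Finset.mem_mk]
    exact ⟨fun hv => ⟨Or.inl hv, h.cubE v hv⟩, fun hv => hv.1.resolve_right fun h' => hnot v h' hv.2⟩
  · rw [hmem]
    simp only [Finset.mem_mk]
    exact ⟨fun hv => ⟨Or.inr hv, hnot v hv⟩, fun hv => hv.1.resolve_left fun h' => hv.2 (h.cubE v h')⟩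
  · rw [← Finset.disjoint_val]
    exact hdAB
  · rw [← Finset.disjoint_val]
    exact hABC.1
  · rw [← Finset.disjoint_val]
    exact hABC.2

end H85FD2
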