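import Pool.Agent.H85.FD2.Real
import Pool.Agent.H85.FD2.Blk
import Pool.Agent.H85.FD2.Fins
import Pool.Agent.H31.AB.PartsR

/-!
# FD version 2: the clauses (A) and (B)
-/

namespace H85FD2

open Polynomial NumberField H9FC H9AB IsDedekindDomain H85FD

universe u v

/-- the conclusions for `F ⊆ K` and `p` -/
structure Out (F : Type u) (K : Type v) [Field F] [NumberField F] [Field K] [NumberField K]
    [Algebra F K] (p : ℕ) : Prop where
  mult : ∀ a b c : 𝓞 K, FSol K p a b c → CopAt K p a b c → ∀ Q : (𝓞 F)[X],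
    (∀ t : 𝓞 F, algebraMap (𝓞 F) F (Q.eval t) =
      Algebra.norm F (algebraMap (𝓞 K) K (a + algebraMap (𝓞 F) (𝓞 K) t * b))) →
    ∀ (Ω : Type) [Field Ω] [IsAlgClosed Ω] [CharP Ω p] (w : 𝓞 F →+* Ω) (x : Ω), x ≠ 0 → x ≠ 1 →
      rootMultiplicity x (Q.map w) = rootMultiplicity x⁻¹ (Q.map w) ∧
      rootMultiplicity x (Q.map w) = rootMultiplicity (1 - x) (Q.map w)
  parts : PartsK F K p
  odd : Odd (Module.finrank F K) → ¬ p ^ 2 ∣ 2 ^ (p - 1) - 1 →
    ∀ a b c : K, a ≠ 0 → b ≠ 0 → c ≠ 0 → a ^ p + b ^ p + c ^ p = 0 →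
      ∀ w : HeightOneSpectrum (𝓞 F), (p : 𝓞 F) ∈ w.asIdeal →
        ∃ v : HeightOneSpectrum (𝓞 K), v.asIdeal.LiesOver w.asIdeal ∧ ¬ H29AB.EqAt v a b c

/-- **The main theorem of FD version 2** -/
theorem main_all (n : ℕ) (hn : 0 < n) : ∃ B : ℕ → Prop, Pool.Agent.H71.FD.Null B ∧
    ∀ p : ℕ, p.Prime → ¬ B p → 5 ≤ p ∧
      ∀ (F : Type u) (K : Type v) [Field F] [NumberField F] [Field K] [NumberField K] [Algebra F K],
      H29AB.RealAb n F → Module.finrank F K ≤ n → Out F K p := by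
  obtain ⟨B, hB, h⟩ := real_all.{u, v} n hn
  refine ⟨B, hB, fun p hp hBp => ?_⟩
  obtain ⟨hp5, hall⟩ := h p hp hBp
  refine ⟨hp5, fun F K _ _ _ _ _ hF hd => ?_⟩
  obtain ⟨hdim, hm⟩ := hall F K hF hd
  have hfact : Fact p.Prime := ⟨hp⟩
  have hS : H55AB.SymFK F K p := by
    intro a b c hF' hC w x h0 h1
    obtain ⟨e1, e2⟩ := hm a b c hF' hC (AlgebraicClosure (ZMod p)) w x h0 h1
    exact ⟨e1.symm, e2.symm⟩
  refine ⟨fun a b c hF' hC Q hQ Ω _ _ _ w x h0 h1 => ?_, fun a b c ha hb hc h w hw S hSv => ?_,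
    fun hodd hW a b c ha hb hc h w hw => ?_⟩
  · rw [eq_nfR F K a b Q hQ]
    exact hm a b c hF' hC Ω w x h0 h1
  · refine H31AB.rel_parts F K p hp5 hdim hS a b c ha hb hc h w hw S fun v => ?_
    rw [hSv v, Ideal.liesOver_iff, eq_comm (a := w.asIdeal)]
    rfl
  · by_contra hcon
    push Not at hcon
    apply hW
    refine (H55AB.rel_main F K p hp5 hdim hS a b c ha hb hc h w hw).1 ?_
    rw [H55AB.goodRel_all F K p a b c ha hb hc h w hw fun v hv => ?_]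
    · exact hodd
    · exact hcon v ((Ideal.liesOver_iff _ _).2 hv.symm)

end H85FD2
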