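import Pool.Agent.H9.AB.RelNorm

/-!
# FD version 2: uniqueness of the relative norm form
-/

namespace H85FD2

open Polynomial NumberField H9AB

/-- the polynomial with the values `N_{K/F}(a + t b)` is the norm form -/
theorem eq_nfR (F K : Type*) [Field F] [NumberField F] [Field K] [NumberField K] [Algebra F K]
    (a b : 𝓞 K) (Q : (𝓞 F)[X])
    (hQ : ∀ t : 𝓞 F, algebraMap (𝓞 F) F (Q.eval t) =
      Algebra.norm F (algebraMap (𝓞 K) K (a + algebraMap (𝓞 F) (𝓞 K) t * b))) :
    Q = nfR F K a b := by
  apply Polynomial.funext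
  intro t
  apply RingOfIntegers.coe_injective
  show algebraMap (𝓞 F) F (Q.eval t) = algebraMap (𝓞 F) F ((nfR F K a b).eval t)
  rw [hQ, ← eval_map_apply, nfR_map, nfL_eval, map_add, map_mul, Algebra.smul_def]
  rfl

end H85FD2
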