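import Pool.Agent.H85.FD2.NormForm
import Pool.Agent.H55.AB.RelAll
import Pool.Agent.H29.AB.Sym

/-!
# FD version 2: the symmetry outside a null set
-/

namespace H85FD2

open Polynomial NumberField H9FC H9AB IsDedekindDomain

universe u v

/-- the exceptional set of `n` -/
theorem real_all (n : ℕ) (hn : 0 < n) : ∃ B : ℕ → Prop, Pool.Agent.H71.FD.Null B ∧
    ∀ p : ℕ, p.Prime → ¬ B p → 5 ≤ p ∧
      ∀ (F : Type u) (K : Type v) [Field F] [NumberField F] [Field K] [NumberField K] [Algebra F K],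
      H29AB.RealAb n F → Module.finrank F K ≤ n → Module.finrank ℚ K < p ∧
      ∀ a b c : 𝓞 K, FSol K p a b c → CopAt K p a b c →
      ∀ (Ω : Type) [Field Ω] [IsAlgClosed Ω] [CharP Ω p] (w : 𝓞 F →+* Ω) (x : Ω), x ≠ 0 → x ≠ 1 →
      rootMultiplicity x ((nfR F K a b).map w) = rootMultiplicity x⁻¹ ((nfR F K a b).map w) ∧
      rootMultiplicity x ((nfR F K a b).map w) = rootMultiplicity (1 - x) ((nfR F K a b).map w) := by
  obtain ⟨B, hB, h⟩ := H72AB.master_real.{u, v} (n * 2) (by omega) n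
  refine ⟨fun p => B p ∨ p ≤ n * n + 5, hB.or
    (Pool.Agent.H71.FD.Null_of_bounded _ fun _ _ h => h), fun p hp hBp => ?_⟩
  rw [not_or, not_le] at hBp
  obtain ⟨hB1, hB2⟩ := hBp
  refine ⟨by omega, fun F K _ _ _ _ _ hF hd => ?_⟩
  have hfne : NeZero n := ⟨hn.ne'⟩
  have hfne2 : NeZero (n * 2) := ⟨by omega⟩
  have hfq : NeZero ((n : ℕ) : ℚ) := ⟨Nat.cast_ne_zero.2 hn.ne'⟩
  have hfq2 : NeZero (((n * 2 : ℕ) : ℕ) : ℚ) := ⟨Nat.cast_ne_zero.2 (by omega)⟩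
  have hc1 : IsCyclotomicExtension {n} ℚ (CyclotomicField n ℚ) :=
    CyclotomicField.isCyclotomicExtension n ℚ
  have hc2 : IsCyclotomicExtension {n * 2} ℚ (CyclotomicField (n * 2) ℚ) :=
    CyclotomicField.isCyclotomicExtension (n * 2) ℚ
  obtain ⟨htot, ⟨ι⟩⟩ := hF
  have hdim : Module.finrank ℚ K < p := by
    have := H55AB.finrank_le n F ⟨ι⟩ K n hd
    omega
  obtain ⟨φ⟩ := exists_emb n 2 (CyclotomicField n ℚ) (CyclotomicField (n * 2) ℚ)
  refine ⟨hdim, fun a b c hF hC Ω _ _ _ w x hx0 hx1 => ?_⟩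
  exact h p hp hB1 F K ⟨(φ : CyclotomicField n ℚ →+* CyclotomicField (n * 2) ℚ).comp ι⟩
    (fun χ => H88AB.conj_of_tot χ) hd a b c hF hC Ω w x hx0 hx1

end H85FD2
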