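import Pool.Agent.H85.FD2.Clause
import Pool.Agent.H89.FE.Quartic

/-!
# FD version 2: relative degree two or four, and relative degree prime to three

`F` a real abelian subfield of `K`.  If `[K : F]` is two or four and `K` does not contain the primitive cube roots
of unity, every element of the Galois group which fixes an embedding of `K` and moves `ω` is blocked over `F`.
If `L` is a Galois field which contains `K` but not `ω`, and `3` does not divide `[K : F]`, the automorphism of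
`L(ω) / L` is blocked over `F`.
-/

set_option autoImplicit false
set_option linter.unusedSectionVars false

namespace H85FD2

open NumberField Finset H85FD Pool.Agent.H89.FrobD Pool.Agent.H89.FE

/-- the embeddings over `τ` -/
abbrev EmbR {F L : Type} [Field F] [Field L] (K : Type) [Field K] [Algebra F K] (τ : F →+* L) : Type :=
  {σ : K →+* L // ∀ x : F, σ (algebraMap F K x) = τ x}

theorem card_embR {F K L : Type} [Field F] [NumberField F] [Field K] [NumberField K] [Algebra F K]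
    [Field L] [NumberField L] [IsGalois ℚ L] (σ₁ : K →+* L) (τ : F →+* L)
    (h : ∀ x : F, σ₁ (algebraMap F K x) = τ x) : Nat.card (EmbR K τ) = Module.finrank F K := by
  let _ : Algebra F L := τ.toAlgebra
  have hst : IsScalarTower ℚ F L := inferInstance
  have hfin : FiniteDimensional F K := inferInstance
  let e : EmbR K τ ≃ (K →ₐ[F] L) :=
    { toFun := fun σ => { σ.1 with commutes' := fun x => σ.2 x }
      invFun := fun σ => ⟨(σ : K →+* L), fun x => σ.commutes x⟩
      left_inv := fun _ => rfl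
      right_inv := fun _ => rfl }
  rw [Nat.card_congr e]
  have hn : Normal F L := Normal.tower_top_of_normal ℚ F L
  refine AlgHom.natCard_of_splits F K L fun x => ?_
  rw [← minpoly.algHom_eq (e ⟨σ₁, h⟩) (e ⟨σ₁, h⟩).injective x]
  exact Normal.splits inferInstance _

/-- parts equal to one, total not divisible by three -/
theorem not_splits_ones {M : Multiset ℕ} (h1 : ∀ k ∈ M, k = 1) (hs : ¬ 3 ∣ M.sum) : ¬ SplitsN 2 M := by
  rintro ⟨A, B, C, hM, hA, hB, hB3, hC, -⟩
  have hB0 : B = 0 := by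
    rw [Multiset.eq_zero_iff_forall_notMem]
    intro k hk
    have h2 := h1 k (by rw [hM, Multiset.mem_add, Multiset.mem_add]; exact Or.inl (Or.inr hk))
    have h3 := hB3 rfl k hk
    omega
  have hC0 : C = 0 := by
    rw [Multiset.eq_zero_iff_forall_notMem]
    intro k hk
    have h2 := h1 k (by rw [hM, Multiset.mem_add, Multiset.mem_add]; exact Or.inr hk)
    have h3 := hC k hk
    rw [Nat.even_iff] at h3
    omega
  obtain ⟨a, ha⟩ := parts_three_sum hA
  apply hs
  rw [hM, hB0, hC0, add_zero, add_zero, ha]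
  exact Dvd.intro _ rfl

section

variable {F K L : Type} [Field F] [NumberField F] [Field K] [NumberField K] [Algebra F K]
  [Field L] [NumberField L] [IsGalois ℚ L]

/-- elements which fix the embeddings of `F` and move `ω` -/
theorem rel_lower (hF : ∃ n : ℕ, 0 < n ∧ H29AB.RealAb n F) (σ₁ : K →ₐ[ℚ] L) {w : L}
    (hw : w ^ 2 + w + 1 = 0) (τ : F →+* L) (hτ : ∀ x : F, σ₁ (algebraMap F K x) = τ x) (X : Set Gal(L/ℚ))
    (hX : ∀ g ∈ X, act g σ₁ = σ₁ ∧ ¬ g w = w ∧
      ∀ (_ : Fintype (EmbR K τ)) (_ : DecidableEq (EmbR K τ)) (π : Equiv.Perm (EmbR K τ)),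
        (∀ σ x, (π σ).1 x = g (σ.1 x)) → ¬ SplitsN 2 π.partition.parts) :
    H10FG.LowerDirichlet {p | H10FG.FC K p} ((X.ncard : ℝ) / (Module.finrank ℚ L : ℝ)) := by
  classical
  refine blocked_main K L ⟨(σ₁ : K →+* L)⟩ X fun g hg => ?_
  obtain ⟨h1, h2, h3⟩ := hX g hg
  have hgτ : ∀ x : F, g (τ x) = τ x := fun x => by
    rw [← hτ]
    exact DFunLike.congr_fun h1 (algebraMap F K x)
  have hgτ' : ∀ x : F, g⁻¹ (τ x) = τ x := by
    intro x
    have h4 : g⁻¹ (g (τ x)) = τ x := by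
      rw [← AlgEquiv.mul_apply, inv_mul_cancel]
      rfl
    rw [hgτ] at h4
    exact h4
  have hk : Function.minimalPeriod (fun τ : F →+* L => (g : L →+* L).comp τ) τ = 1 :=
    Function.minimalPeriod_eq_one_iff_isFixedPt.2 (RingHom.ext fun x => hgτ x)
  have hfin : Finite (EmbR K τ) := by
    refine Nat.finite_of_card_ne_zero ?_
    rw [card_embR (σ₁ : K →+* L) τ hτ]
    exact Module.finrank_pos.ne'
  have hfin' : Fintype (EmbR K τ) := Fintype.ofFinite _
  let π : Equiv.Perm (EmbR K τ) :=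
    { toFun := fun σ => ⟨(g : L →+* L).comp σ.1, fun x => by
        show g (σ.1 (algebraMap F K x)) = τ x
        rw [σ.2, hgτ]⟩
      invFun := fun σ => ⟨((g⁻¹ : Gal(L/ℚ)) : L →+* L).comp σ.1, fun x => by
        show g⁻¹ (σ.1 (algebraMap F K x)) = τ x
        rw [σ.2, hgτ']⟩
      left_inv := fun σ => by
        apply Subtype.ext
        refine RingHom.ext fun x => ?_
        show g⁻¹ (g (σ.1 x)) = σ.1 x
        rw [← AlgEquiv.mul_apply, inv_mul_cancel]
        rfl
      right_inv := fun σ => by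
        apply Subtype.ext
        refine RingHom.ext fun x => ?_
        show g (g⁻¹ (σ.1 x)) = σ.1 x
        rw [← AlgEquiv.mul_apply, mul_inv_cancel]
        rfl }
  refine ⟨F, inferInstance, inferInstance, inferInstance, hF, τ, hfin', inferInstance, π, ?_, ?_⟩
  · intro σ
    rw [hk, pow_one]
    rfl
  · intro r hr hrw
    rw [hk, pow_one] at hrw
    have h4 : r = 2 := by
      rcases hr with h | h
      · exact absurd ((hrw w hw).2 h) h2
      · exact h
    rw [h4]
    exact h3 _ _ π fun σ x => rfl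

end

/-- RELATIVE DEGREE TWO OR FOUR -/
theorem small_lower {F K : Type} [Field F] [NumberField F] [Field K] [NumberField K] [Algebra F K]
    (hF : ∃ n : ℕ, 0 < n ∧ H29AB.RealAb n F) (h24 : Module.finrank F K = 2 ∨ Module.finrank F K = 4)
    (hw : ∀ w : K, w ^ 2 + w + 1 ≠ 0) :
    H10FG.LowerDirichlet {p | H10FG.FC K p} (1 / (2 * (Module.finrank ℚ K : ℝ))) := by
  classical
  obtain ⟨L, _, _, _, ⟨σ₁⟩, w, hwL⟩ := exists_L K
  have iG : Fintype Gal(L/ℚ) := Fintype.ofFinite _
  let τ : F →+* L := (σ₁ : K →+* L).comp (algebraMap F K)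
  have h1 := rel_lower hF σ₁ hwL τ (fun _ => rfl) {g : Gal(L/ℚ) | act g σ₁ = σ₁ ∧ ¬ g w = w} fun g hg => by
    refine ⟨hg.1, hg.2, fun iE iD π hπ => ?_⟩
    refine blk_two ?_ π ⟨⟨(σ₁ : K →+* L), fun _ => rfl⟩, ?_⟩
    · rw [← Nat.card_eq_fintype_card, card_embR (σ₁ : K →+* L) τ fun _ => rfl]
      exact h24
    · apply Subtype.ext
      refine RingHom.ext fun x => ?_
      rw [hπ]
      exact DFunLike.congr_fun hg.1 x
  refine h1.mono (fun p _ hp => hp) (le_of_eq ?_)
  obtain ⟨n, hn1, hn2⟩ := exists_move hw hwL σ₁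
  have h2 := (half (W := fun g : Gal(L/ℚ) => g w = w) (fun g n hn => W_mul hwL g n hn)
    (fun g => act g σ₁ = σ₁) n hn2 (fun g => by
      show act (g * n) σ₁ = σ₁ ↔ _
      rw [act_mul, hn1])).1
  have h3 := card_stab_emb σ₁
  rw [IsGalois.card_aut_eq_finrank, Nat.card_eq_fintype_card, Fintype.card_subtype] at h3
  have h4 : ({g : Gal(L/ℚ) | act g σ₁ = σ₁ ∧ ¬ g w = w} : Set Gal(L/ℚ)).ncard =
      (univ.filter (fun g : Gal(L/ℚ) => act g σ₁ = σ₁ ∧ ¬ g w = w)).card := by
    rw [← Set.ncard_coe_finset]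
    congr 1
    ext g
    simp
  have h5 : Module.finrank ℚ L = 2 * Module.finrank ℚ K *
      ({g : Gal(L/ℚ) | act g σ₁ = σ₁ ∧ ¬ g w = w} : Set Gal(L/ℚ)).ncard := by
    rw [h4, ← h3, ← h2]
    ring
  have hpos : (0 : ℝ) < Module.finrank ℚ L := by exact_mod_cast Module.finrank_pos
  have hposK : (0 : ℝ) < Module.finrank ℚ K := by exact_mod_cast Module.finrank_pos
  have h6 : (Module.finrank ℚ L : ℝ) = 2 * Module.finrank ℚ K *
      (({g : Gal(L/ℚ) | act g σ₁ = σ₁ ∧ ¬ g w = w} : Set Gal(L/ℚ)).ncard : ℝ) := by exact_mod_cast h5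
  rw [div_eq_div_iff (by positivity) hpos.ne', h6]
  ring

/-- CLOSURE WITHOUT `ω`, RELATIVE DEGREE PRIME TO THREE -/
theorem three_lower {F K L₀ : Type} [Field F] [NumberField F] [Field K] [NumberField K] [Algebra F K]
    [Field L₀] [NumberField L₀] [IsGalois ℚ L₀] (hF : ∃ n : ℕ, 0 < n ∧ H29AB.RealAb n F)
    (σ₀ : K →+* L₀) (h3 : ¬ 3 ∣ Module.finrank F K) (hw : ∀ w : L₀, w ^ 2 + w + 1 ≠ 0) :
    H10FG.LowerDirichlet {p | H10FG.FC K p} (1 / (2 * (Module.finrank ℚ L₀ : ℝ))) := by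
  classical
  obtain ⟨L, _, _, _, ⟨ι⟩, w, hwL⟩ := exists_L L₀
  have iG : Fintype Gal(L/ℚ) := Fintype.ofFinite _
  let σ₁ : K →ₐ[ℚ] L := ι.comp σ₀.toRatAlgHom
  let τ : F →+* L := (σ₁ : K →+* L).comp (algebraMap F K)
  -- all embeddings of `K` go into `ι L₀`
  have hall : ∀ (σ : K →ₐ[ℚ] L) (x : K), ∃ y : L₀, σ x = ι y := by
    intro σ x
    obtain ⟨ρ, hρ⟩ := exists_gal σ₁ σ
    obtain ⟨g, hg⟩ := exists_aut ι (act ρ ι)
    refine ⟨g (σ₀ x), ?_⟩
    rw [← hρ]
    show ρ (ι (σ₀ x)) = ι (g (σ₀ x))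
    exact DFunLike.congr_fun hg (σ₀ x)
  have h1 := rel_lower hF σ₁ hwL τ (fun _ => rfl) {g : Gal(L/ℚ) | act g ι = ι ∧ ¬ g w = w} fun g hg => by
    have hfix : ∀ (σ : K →ₐ[ℚ] L) (x : K), g (σ x) = σ x := by
      intro σ x
      obtain ⟨y, hy⟩ := hall σ x
      rw [hy]
      exact DFunLike.congr_fun hg.1 y
    refine ⟨AlgHom.ext fun x => hfix σ₁ x, hg.2, fun iE iD π hπ => ?_⟩
    have hπ1 : ∀ σ, π σ = σ := fun σ => by
      apply Subtype.ext
      refine RingHom.ext fun x => ?_
      rw [hπ]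
      exact hfix σ.1.toRatAlgHom x
    refine not_splits_ones (fun k hk => ?_) ?_
    · by_contra hk1
      have hkp := π.partition.parts_pos hk
      have h5 := perm_count π k hkp
      have h6 : (univ.filter fun x => Function.minimalPeriod π x = k) = ∅ := by
        rw [filter_eq_empty_iff]
        intro x _ h7
        exact hk1 (h7.symm.trans (Function.minimalPeriod_eq_one_iff_isFixedPt.2 (hπ1 x)))
      rw [h6, card_empty] at h5
      have h8 := Multiset.count_pos.2 hk
      rcases Nat.mul_eq_zero.1 h5 with h | h <;> omega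
    · rw [π.partition.parts_sum, ← Nat.card_eq_fintype_card, card_embR (σ₁ : K →+* L) τ fun _ => rfl]
      exact h3
  refine h1.mono (fun p _ hp => hp) (le_of_eq ?_)
  obtain ⟨n, hn1, hn2⟩ := exists_move hw hwL ι
  have h2 := (half (W := fun g : Gal(L/ℚ) => g w = w) (fun g n hn => W_mul hwL g n hn)
    (fun g => act g ι = ι) n hn2 (fun g => by
      show act (g * n) ι = ι ↔ _
      rw [act_mul, hn1])).1
  have h3 := card_stab_emb ι
  rw [IsGalois.card_aut_eq_finrank, Nat.card_eq_fintype_card, Fintype.card_subtype] at h3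
  have h4 : ({g : Gal(L/ℚ) | act g ι = ι ∧ ¬ g w = w} : Set Gal(L/ℚ)).ncard =
      (univ.filter (fun g : Gal(L/ℚ) => act g ι = ι ∧ ¬ g w = w)).card := by
    rw [← Set.ncard_coe_finset]
    congr 1
    ext g
    simp
  have h5 : Module.finrank ℚ L = 2 * Module.finrank ℚ L₀ *
      ({g : Gal(L/ℚ) | act g ι = ι ∧ ¬ g w = w} : Set Gal(L/ℚ)).ncard := by
    rw [h4, ← h3, ← h2]
    ring
  have hpos : (0 : ℝ) < Module.finrank ℚ L := by exact_mod_cast Module.finrank_pos
  have hposK : (0 : ℝ) < Module.finrank ℚ L₀ := by exact_mod_cast Module.finrank_pos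
  have h6 : (Module.finrank ℚ L : ℝ) = 2 * Module.finrank ℚ L₀ *
      (({g : Gal(L/ℚ) | act g ι = ι ∧ ¬ g w = w} : Set Gal(L/ℚ)).ncard : ℝ) := by exact_mod_cast h5
  rw [div_eq_div_iff (by positivity) hpos.ne', h6]
  ring

end H85FD2
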